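import Pool.Agent.N659.HB.Stm8
import Pool.Agent.N163.HB.Gapa
import Pool.Agent.W792.WA.G9

/-!
# SD/SDG: the gap at strong disorder, assembly (helper441, for helper659)
-/

set_option autoImplicit false

namespace Pool.Agent.N441.SD.SDG

open MeasureTheory Filter Pool.Agent.W792.LL Pool.Agent.W792.WA Pool.Agent.N659.HB
open scoped Topology ENNReal

noncomputable section

/-- the level function -/
def qf (ρ : Measure ℝ) (t : ℂ) : ℂ := 1 / bet ρ t - t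

theorem unif_ae (w : ℝ) : ∀ᵐ x ∂(unif w), |x| ≤ w := by
  unfold unif
  refine Measure.ae_smul_measure ?_ _
  filter_upwards [ae_restrict_mem measurableSet_Icc] with x hx
  exact abs_le.2 hx

theorem unif_atom (w a : ℝ) : unif w {a} < 1 := by
  unfold unif
  rw [Measure.smul_apply, smul_eq_mul]
  have h : (volume.restrict (Set.Icc (-w) w)) {a} = 0 := measure_singleton a
  rw [h, mul_zero]
  exact one_pos

theorem small_pow {p a b : ℝ} (hp : 0 < p) (ha : 0 ≤ a) (hb : 0 < b) :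
    ∃ g : ℝ, 0 < g ∧ ∀ x : ℝ, 0 ≤ x → x ≤ g → a * x ^ p ≤ b := by
  have h1 : 0 < b / (a + 1) := by positivity
  refine ⟨(b / (a + 1)) ^ (1 / p), Real.rpow_pos_of_pos h1 _, fun x hx hxg => ?_⟩
  have h2 : x ^ p ≤ b / (a + 1) := by
    have h3 := Real.rpow_le_rpow hx hxg hp.le
    rw [← Real.rpow_mul h1.le, one_div_mul_cancel hp.ne', Real.rpow_one] at h3
    exact h3
  calc a * x ^ p ≤ a * (b / (a + 1)) := mul_le_mul_of_nonneg_left h2 ha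
    _ ≤ (a + 1) * (b / (a + 1)) := mul_le_mul_of_nonneg_right (by linarith) h1.le
    _ = b := by field_simp

theorem pow_bound {y v M : ℝ} (hy : 0 ≤ y) (hv : 0 < v) (hyv : y ≤ v) (hM : y ≤ M) :
    v ^ (-(15 / 16) : ℝ) * y ≤ M ^ (1 / 16 : ℝ) := by
  have h1 : y = y ^ (15 / 16 : ℝ) * y ^ (1 / 16 : ℝ) := by
    rw [← Real.rpow_add_of_nonneg hy (by norm_num) (by norm_num)]
    norm_num
  have h2 : v ^ (-(15 / 16) : ℝ) * y ^ (15 / 16 : ℝ) ≤ 1 := by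
    rw [Real.rpow_neg hv.le, inv_mul_le_iff₀ (Real.rpow_pos_of_pos hv _), mul_one]
    exact Real.rpow_le_rpow hy hyv (by norm_num)
  calc v ^ (-(15 / 16) : ℝ) * y = (v ^ (-(15 / 16) : ℝ) * y ^ (15 / 16 : ℝ)) * y ^ (1 / 16 : ℝ) := by
        conv_lhs => rw [h1]
        ring
    _ ≤ 1 * y ^ (1 / 16 : ℝ) :=
        mul_le_mul_of_nonneg_right h2 (Real.rpow_nonneg hy _)
    _ = y ^ (1 / 16 : ℝ) := one_mul _
    _ ≤ M ^ (1 / 16 : ℝ) := Real.rpow_le_rpow hy hM (by norm_num)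

/-- facts on the value of the transform -/
theorem h0_facts {h0 : ℂ} {Ch ch : ℝ} (hch : 0 < ch) (h1 : ‖h0‖ ≤ Ch) (h2 : ch ≤ h0.im) :
    h0 ≠ 0 ∧ ch ≤ ‖h0‖ ∧ ‖1 / h0‖ ≤ 1 / ch ∧ (1 / h0).im ≤ -(ch / Ch ^ 2) := by
  have h3 : ch ≤ ‖h0‖ := h2.trans ((le_abs_self _).trans (Complex.abs_im_le_norm h0))
  have h4 : 0 < ‖h0‖ := lt_of_lt_of_le hch h3
  refine ⟨norm_pos_iff.1 h4, h3, ?_, ?_⟩
  · rw [norm_div, norm_one]
    exact one_div_le_one_div_of_le hch h3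
  · rw [one_div, Complex.inv_im, Complex.normSq_eq_norm_sq, neg_div, neg_le_neg_iff]
    have h5 : ‖h0‖ ^ 2 ≤ Ch ^ 2 := pow_le_pow_left₀ h4.le h1 2
    exact div_le_div₀ (hch.le.trans h2) h2 (by positivity) h5

/-- the invariance -/
theorem inv {d : ℕ} {w θ θ' κ γ : ℝ} [IsProbabilityMeasure (unif w)] (hw : 0 < w) (hγ : 0 < γ)
    (hUX : S_UX) (hNRES : S_NRES) (hBL : S_BL)
    {ρ : Measure ℝ} [IsProbabilityMeasure ρ] {R : ℝ} (hρ : ρ (Set.Icc (-R) R)ᶜ = 0)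
    {K : C(UnitAddTorus (Fin d), ℝ)} (hK : ∀ k, K k = κ + γ * lap d k) {z : ℂ}
    (hzr : |z.re - κ| ≤ θ * w) (hz : 0 < z.im) (hz1 : z.im ≤ 1)
    {Ch ch δ L m B e1 CP E0 : ℝ} (hch : 0 < ch) (hCh : 1 ≤ Ch)
    (hHU : ∀ ζ : ℂ, |ζ.re| ≤ θ' * w → 0 < ζ.im → ζ.im ≤ 2 →
      ‖hu w ζ‖ ≤ Ch ∧ ch ≤ (hu w ζ).im ∧ (1 / hu w ζ + ζ).im ≤ -ch)
    (hHL : ∀ ζ ζ' : ℂ, |ζ.re| ≤ θ' * w → 0 < ζ.im → ζ.im ≤ 2 → |ζ'.re| ≤ θ' * w → 0 < ζ'.im →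
      ζ'.im ≤ 2 → ‖hu w ζ - hu w ζ'‖ ≤ Ch * ‖ζ - ζ'‖)
    (hN1 : ∀ ζ : ℂ, |ζ.re| ≤ θ' * w → 0 < ζ.im → ζ.im ≤ 2 → ∀ N : C(UnitAddTorus (Fin d), ℂ),
      (∀ (u : l2 (Fin d → ℤ)) (x : Fin d → ℤ),
        ∫ v, gr w (xs d γ ζ) v u x ∂(Pn (unif w) (Fin d → ℤ)) = opr N u x) →
      ∀ k, ‖N k - hu w ζ‖ ≤ e1)
    (hPT : ∀ ζ : ℂ, |ζ.re| ≤ θ' * w → 0 < ζ.im → ζ.im ≤ 2 →
      ∀ Y N N' : C(UnitAddTorus (Fin d), ℂ), ‖Y‖ ≤ ζ.im / 2 →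
      (∀ (u : l2 (Fin d → ℤ)) (x : Fin d → ℤ),
        ∫ v, gr w (xs d γ ζ) v u x ∂(Pn (unif w) (Fin d → ℤ)) = opr N u x) →
      (∀ (u : l2 (Fin d → ℤ)) (x : Fin d → ℤ),
        ∫ v, gr w (xs d γ ζ + Y) v u x ∂(Pn (unif w) (Fin d → ℤ)) = opr N' u x) →
      ∀ k, ‖N' k - N k‖ ≤ CP * (γ ^ (1 / 4 : ℝ) / ζ.im + ζ.im ^ (-(15 / 16) : ℝ)) * ‖Y‖
        + CP * (‖Y‖ / ζ.im) ^ 2)
    (hLQ : ∀ t : ℂ, t.im ≤ -(ch / (2 * Ch ^ 2)) → ‖t‖ ≤ 1 / ch + 1 → ‖qf ρ t‖ ≤ B ∧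
      (qf ρ t).im ≤ -m ∧ ∀ t' : ℂ, t'.im ≤ -(ch / (2 * Ch ^ 2)) → ‖t'‖ ≤ 1 / ch + 1 →
        ‖qf ρ t - qf ρ t'‖ ≤ L * ‖t - t'‖)
    (hδ : 0 < δ) (hδ1 : δ ≤ 1) (hδc : δ ≤ ch / (2 * Ch ^ 2)) (hδch : δ ≤ ch) (hm : 0 < m)
    (hL : 0 ≤ L) (hCP : 0 ≤ CP) (hLδ : L * δ ≤ m / 2) (hγδ : 4 * d * γ ≤ δ / 16) (hBδ : B ≤ δ / 16)
    (hBθ : θ * w + B ≤ θ' * w) (hB0 : 0 ≤ B) (hB1 : B ≤ 1)
    (hE : e1 + (CP * γ ^ (1 / 4 : ℝ) * (L * δ / m) + CP * (L * δ) ^ (1 / 16 : ℝ)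
      + CP * (L * δ / m) ^ 2) + Ch * B ≤ E0)
    (hE1 : 2 / ch ^ 2 * E0 ≤ 3 * δ / 16) (hE2 : E0 ≤ ch / 2) :
    ∀ s ∈ ZB d (1 / hu w (z - κ) + (z - κ)) (δ / 2),
      psi (unif w) (UU ρ (wz K z) s) ∈ ZB d (1 / hu w (z - κ) + (z - κ)) (δ / 2) := by
  intro s hs
  obtain ⟨ζ0, hζ0⟩ : ∃ ζ0 : ℂ, ζ0 = z - κ := ⟨_, rfl⟩
  rw [← hζ0] at hs ⊢
  have hζ0i : ζ0.im = z.im := by rw [hζ0]; simp
  have hζ0r : ζ0.re = z.re - κ := by rw [hζ0]; simp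
  have hζ0re : |ζ0.re| ≤ θ * w := by rw [hζ0r]; exact hzr
  obtain ⟨hu1, hu2, hu3⟩ := hHU ζ0 (by linarith) (by rw [hζ0i]; exact hz) (by rw [hζ0i]; linarith)
  have hLip := fun ζ h1 h2 h3 => hHL ζ ζ0 h1 h2 h3 (by linarith) (by rw [hζ0i]; exact hz)
    (by rw [hζ0i]; linarith)
  obtain ⟨h0, hh0⟩ : ∃ h0, h0 = hu w ζ0 := ⟨_, rfl⟩
  rw [← hh0] at hs hu1 hu2 hu3 hLip ⊢
  obtain ⟨S0, hS0⟩ : ∃ S0, S0 = 1 / h0 + ζ0 := ⟨_, rfl⟩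
  rw [← hS0] at hs hu3 ⊢
  obtain ⟨h0ne, h0n, ht0n, ht0i⟩ := h0_facts hch hu1 hu2
  obtain ⟨-, -, hZ, hZ'⟩ := hBL d S0 (δ / 2) ch hch hu3 (by positivity) (by linarith)
  obtain ⟨-, S, hS⟩ := hZ s hs
  have hcc : ch / Ch ^ 2 = 2 * (ch / (2 * Ch ^ 2)) := by
    have : 0 < Ch := by linarith
    field_simp
  -- the argument
  obtain ⟨t, ht⟩ : ∃ t : UnitAddTorus (Fin d) → ℂ, ∀ k, t k = ((K k : ℂ) - z) + S k :=
    ⟨_, fun _ => rfl⟩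
  have hlap : ∀ k, ‖((γ * lap d k : ℝ) : ℂ)‖ ≤ δ / 16 := by
    intro k
    rw [Complex.norm_real, Real.norm_eq_abs]
    obtain ⟨l1, l2⟩ := Pool.Agent.N163.HB.GAPA.lap_mem d k
    rw [abs_of_nonneg (by positivity)]
    nlinarith
  have htd : ∀ k, ‖t k - 1 / h0‖ ≤ δ := by
    intro k
    have e : t k - 1 / h0 = ((γ * lap d k : ℝ) : ℂ) + (S k - S0) := by
      rw [ht, hK, hS0, hζ0]
      push_cast
      ring
    rw [e]
    have h1 := norm_add_le ((γ * lap d k : ℝ) : ℂ) (S k - S0)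
    have h2 := (hS k).2.1
    have h3 := hlap k
    linarith
  have ht0 : (1 / h0).im ≤ -(ch / (2 * Ch ^ 2)) ∧ ‖1 / h0‖ ≤ 1 / ch + 1 := by
    have : 0 < ch / (2 * Ch ^ 2) := by positivity
    constructor <;> linarith
  have htr : ∀ k, (t k).im ≤ -(ch / (2 * Ch ^ 2)) ∧ ‖t k‖ ≤ 1 / ch + 1 := by
    intro k
    have h1 := htd k
    have h2 : |(t k - 1 / h0).im| ≤ ‖t k - 1 / h0‖ := Complex.abs_im_le_norm _
    have h3 := (abs_le.1 (h2.trans h1)).2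
    rw [Complex.sub_im] at h3
    have h4 : ‖t k‖ ≤ ‖t k - 1 / h0‖ + ‖1 / h0‖ := by
      have := norm_add_le (t k - 1 / h0) (1 / h0)
      rwa [sub_add_cancel] at this
    constructor <;> linarith
  obtain ⟨hq1, hq2, -⟩ := hLQ (1 / h0) ht0.1 ht0.2
  -- the perturbation
  have htc : Continuous t := by
    have : t = fun k => ((K k : ℂ) - z) + S k := funext ht
    rw [this]
    fun_prop
  have hqc : Continuous fun k => qf ρ (t k) := by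
    have h1 : LipschitzOnWith L.toNNReal (qf ρ)
        {t : ℂ | t.im ≤ -(ch / (2 * Ch ^ 2)) ∧ ‖t‖ ≤ 1 / ch + 1} := by
      refine LipschitzOnWith.of_dist_le_mul fun x hx y hy => ?_
      rw [Real.coe_toNNReal _ hL, dist_eq_norm, dist_eq_norm]
      exact (hLQ x hx.1 hx.2).2.2 y hy.1 hy.2
    exact h1.continuousOn.comp_continuous htc htr
  obtain ⟨Y, hY⟩ : ∃ Y : C(UnitAddTorus (Fin d), ℂ), ∀ k, Y k = qf ρ (t k) - qf ρ (1 / h0) :=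
    ⟨⟨fun k => qf ρ (t k) - qf ρ (1 / h0), hqc.sub continuous_const⟩, fun _ => rfl⟩
  have hYn : ‖Y‖ ≤ L * δ := by
    rw [ContinuousMap.norm_le _ (by positivity)]
    intro k
    rw [hY]
    exact ((hLQ (t k) (htr k).1 (htr k).2).2.2 (1 / h0) ht0.1 ht0.2).trans
      (mul_le_mul_of_nonneg_left (htd k) hL)
  -- the energy
  obtain ⟨ζ, hζ⟩ : ∃ ζ, ζ = ζ0 - qf ρ (1 / h0) := ⟨_, rfl⟩
  have hqi : |(qf ρ (1 / h0)).im| ≤ B := (Complex.abs_im_le_norm _).trans hq1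
  have hqr : |(qf ρ (1 / h0)).re| ≤ B := (Complex.abs_re_le_norm _).trans hq1
  have hζm : m ≤ ζ.im := by
    rw [hζ, Complex.sub_im, hζ0i]
    linarith
  have hζi : 0 < ζ.im := by linarith
  have hζ2 : ζ.im ≤ 2 := by
    rw [hζ, Complex.sub_im, hζ0i]
    have := (abs_le.1 hqi).1
    linarith
  have hζr : |ζ.re| ≤ θ' * w := by
    rw [hζ, Complex.sub_re]
    have := abs_sub (ζ0.re) ((qf ρ (1 / h0)).re)
    linarith
  have hYζ : ‖Y‖ ≤ ζ.im / 2 := by linarith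
  -- the symbol
  obtain ⟨X, hX⟩ : ∃ X : C(UnitAddTorus (Fin d), ℂ), X = xs d γ ζ + Y := ⟨_, rfl⟩
  have hXk : ∀ k, X k = ((γ * lap d k : ℝ) : ℂ) - ζ + Y k := by
    intro k
    rw [hX]
    rfl
  have hXi : ∀ k, (X k).im ≤ -(ζ.im / 2) := by
    intro k
    rw [hXk, Complex.add_im, Complex.sub_im, Complex.ofReal_im]
    have h1 : |(Y k).im| ≤ ζ.im / 2 :=
      (Complex.abs_im_le_norm _).trans ((Y.norm_coe_le_norm k).trans hYζ)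
    have := (abs_le.1 h1).2
    linarith
  obtain ⟨N', hN', hN'2⟩ := hNRES (unif w) d w (ζ.im / 2) X hw.le (by positivity) hXi (unif_ae w)
  obtain ⟨N, hN, -⟩ := hNRES (unif w) d w ζ.im (xs d γ ζ) hw.le hζi (fun k => by
    show (((γ * lap d k : ℝ) : ℂ) - ζ).im ≤ _
    rw [Complex.sub_im, Complex.ofReal_im, zero_sub]) (unif_ae w)
  have hXbet : ∀ k, 1 / bet ρ (((K k : ℂ) - z) + S k) - S k = X k := by
    intro k
    rw [hXk, hY, hζ, ← ht k]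
    unfold qf
    have h1 := ht k
    rw [hK] at h1
    rw [hζ0]
    push_cast at h1 ⊢
    linear_combination h1
  have hUU : UU ρ (wz K z) s = toC fun k => cayx (X k) 0 := by
    unfold UU
    congr 1
    funext k
    have h1 := (hUX ρ R ((K k : ℂ) - z) (S k) hρ (by simpa using hz)
      (by have := (hS k).2.2; linarith)).2.2
    rw [hXbet k] at h1
    rw [(hS k).1, ← h1]
    rfl
  refine hZ' _ fun k => ⟨1 / N' k - X k, ?_, ?_⟩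
  · rw [hUU]
    exact (hN'2 k).2
  -- the errors
  have a1 : ‖N k - hu w ζ‖ ≤ e1 := hN1 ζ hζr hζi hζ2 N hN k
  have a2 := hPT ζ hζr hζi hζ2 Y N N' hYζ hN (by rw [← hX]; exact hN') k
  have a3 : ‖hu w ζ - h0‖ ≤ Ch * B := by
    refine (hLip ζ hζr hζi hζ2).trans (mul_le_mul_of_nonneg_left ?_ (by linarith))
    have : ζ - ζ0 = -qf ρ (1 / h0) := by rw [hζ]; ring
    rw [this, norm_neg]
    exact hq1
  have hYm : ‖Y‖ / ζ.im ≤ L * δ / m := div_le_div₀ (by positivity) hYn hm hζm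
  have a4 : CP * (γ ^ (1 / 4 : ℝ) / ζ.im + ζ.im ^ (-(15 / 16) : ℝ)) * ‖Y‖
      + CP * (‖Y‖ / ζ.im) ^ 2 ≤ CP * γ ^ (1 / 4 : ℝ) * (L * δ / m) + CP * (L * δ) ^ (1 / 16 : ℝ)
        + CP * (L * δ / m) ^ 2 := by
    have b1 : 0 ≤ γ ^ (1 / 4 : ℝ) := Real.rpow_nonneg hγ.le _
    have b2 : ζ.im ^ (-(15 / 16) : ℝ) * ‖Y‖ ≤ (L * δ) ^ (1 / 16 : ℝ) :=
      pow_bound (norm_nonneg _) hζi (by linarith) hYn
    have b3 : (‖Y‖ / ζ.im) ^ 2 ≤ (L * δ / m) ^ 2 :=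
      pow_le_pow_left₀ (by positivity) hYm 2
    have b4 : γ ^ (1 / 4 : ℝ) * (‖Y‖ / ζ.im) ≤ γ ^ (1 / 4 : ℝ) * (L * δ / m) :=
      mul_le_mul_of_nonneg_left hYm b1
    have b5 := mul_le_mul_of_nonneg_left b2 hCP
    have b6 := mul_le_mul_of_nonneg_left b3 hCP
    have b7 := mul_le_mul_of_nonneg_left b4 hCP
    have e : CP * (γ ^ (1 / 4 : ℝ) / ζ.im + ζ.im ^ (-(15 / 16) : ℝ)) * ‖Y‖ =
        CP * (γ ^ (1 / 4 : ℝ) * (‖Y‖ / ζ.im)) + CP * (ζ.im ^ (-(15 / 16) : ℝ) * ‖Y‖) := by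
      ring
    rw [e]
    linarith
  have a5 : ‖N' k - h0‖ ≤ E0 := by
    have e : N' k - h0 = (N' k - N k) + (N k - hu w ζ) + (hu w ζ - h0) := by ring
    rw [e]
    have h1 := norm_add_le ((N' k - N k) + (N k - hu w ζ)) (hu w ζ - h0)
    have h2 := norm_add_le (N' k - N k) (N k - hu w ζ)
    linarith
  have hN'0 : N' k ≠ 0 := (hN'2 k).1
  have a6 : ch / 2 ≤ ‖N' k‖ := by
    have h1 := norm_sub_le (N' k) (N' k - h0)
    have h2 : N' k - (N' k - h0) = h0 := by ring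
    rw [h2] at h1
    linarith
  have a7 : ‖1 / N' k - 1 / h0‖ ≤ 3 * δ / 16 := by
    have e : 1 / N' k - 1 / h0 = -((N' k - h0) / (N' k * h0)) := by
      field_simp
      ring
    rw [e, norm_neg, norm_div, norm_mul]
    have h1 : ch / 2 * ch ≤ ‖N' k‖ * ‖h0‖ := mul_le_mul a6 h0n hch.le (by positivity)
    have h2 : 0 ≤ E0 := (norm_nonneg _).trans a5
    calc ‖N' k - h0‖ / (‖N' k‖ * ‖h0‖) ≤ E0 / (ch / 2 * ch) :=
          div_le_div₀ h2 a5 (by positivity) h1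
      _ = 2 / ch ^ 2 * E0 := by field_simp
      _ ≤ _ := hE1
  have a8 : ‖qf ρ (t k)‖ ≤ δ / 16 := (hLQ (t k) (htr k).1 (htr k).2).1.trans hBδ
  have e : 1 / N' k - X k - S0 = (1 / N' k - 1 / h0) - ((γ * lap d k : ℝ) : ℂ) - qf ρ (t k) := by
    rw [hXk, hY, hζ, hS0]
    ring
  rw [e]
  have h1 := norm_sub_le ((1 / N' k - 1 / h0) - ((γ * lap d k : ℝ) : ℂ)) (qf ρ (t k))
  have h2 := norm_sub_le (1 / N' k - 1 / h0) ((γ * lap d k : ℝ) : ℂ)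
  have h3 := hlap k
  linarith

/-- **SD/SDG.** -/
theorem main : S_CAY → S_CX → S_UUC → S_FIX → S_UX → S_GR → S_NRES → S_U1 → S_HU → S_N1 → S_PT →
    S_LQ → S_BL → S_SDG := by
  intro hCAY hCX _ hFIX hUX _ hNRES _ hHU hN1 hPT hLQ hBL
  intro ψ hψ d w θ κ _ hd hw hθ0 hθ1
  obtain ⟨θ', hθ'⟩ : ∃ θ', θ' = (1 + θ) / 2 := ⟨_, rfl⟩
  have hθ'0 : 0 ≤ θ' := by rw [hθ']; linarith
  have hθ'1 : θ' < 1 := by rw [hθ']; linarith
  obtain ⟨Ch, ch, hCh, hch, hHU1, hHU2⟩ := hHU w θ' hw hθ'0 hθ'1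
  obtain ⟨CN, gN, hCN, hgN, hN1'⟩ := hN1 d w θ' hw hθ'0 hθ'1
  obtain ⟨CP, gP, hCP, hgP, hPT'⟩ := hPT d w θ' hw hθ'0 hθ'1
  have hCh0 : 0 < Ch := by linarith
  have hc1 : 0 < ch / (2 * Ch ^ 2) := by positivity
  obtain ⟨C2, c2, r1, hC2, hc2, hr1, hLQ'⟩ := hLQ ψ hψ (1 / ch + 1) (ch / (2 * Ch ^ 2))
    (by positivity) hc1
  have hchCh : ch ≤ Ch := by
    obtain ⟨h1, h2, -⟩ := hHU1 Complex.I (by simp; positivity) (by simp) (by simp)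
    exact h2.trans ((le_abs_self _).trans ((Complex.abs_im_le_norm _).trans h1))
  obtain ⟨Λ, hΛ⟩ : ∃ Λ, Λ = C2 / c2 := ⟨_, rfl⟩
  have hΛ0 : 0 < Λ := by rw [hΛ]; positivity
  obtain ⟨A, hA⟩ : ∃ A, A = 2 / ch ^ 2 := ⟨_, rfl⟩
  have hA0 : 0 < A := by rw [hA]; positivity
  -- the radius
  obtain ⟨δ, hδ⟩ : ∃ δ, δ = 1 / (1 + 2 * Ch ^ 2 / ch + 2 * Λ + 1 / ch + 16 * (A * CP * Λ ^ 2)) :=
    ⟨_, rfl⟩
  have hCP0 : 0 < CP := by linarith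
  have hCN0 : 0 < CN := by linarith
  have hδ0 : 0 < δ := by rw [hδ]; positivity
  have hδs : δ + δ * (2 * Ch ^ 2 / ch) + δ * (2 * Λ) + δ * (1 / ch) +
      δ * (16 * (A * CP * Λ ^ 2)) = 1 := by
    have : δ * (1 + 2 * Ch ^ 2 / ch + 2 * Λ + 1 / ch + 16 * (A * CP * Λ ^ 2)) = 1 := by
      rw [hδ]
      exact one_div_mul_cancel (by positivity)
    linarith
  have p1 : 0 ≤ δ * (2 * Ch ^ 2 / ch) := by positivity
  have p2 : 0 ≤ δ * (2 * Λ) := by positivity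
  have p3 : 0 ≤ δ * (1 / ch) := by positivity
  have p4 : 0 ≤ δ * (16 * (A * CP * Λ ^ 2)) := by positivity
  have hδ1 : δ ≤ 1 := by linarith
  have hδc : δ ≤ ch / (2 * Ch ^ 2) := by
    have h1 : δ * (2 * Ch ^ 2 / ch) ≤ 1 := by linarith
    rw [le_div_iff₀ (by positivity)]
    rwa [← mul_div_assoc, div_le_one hch] at h1
  have hδch : δ ≤ ch := by
    have h1 : δ * (1 / ch) ≤ 1 := by linarith
    rwa [mul_one_div, div_le_one hch] at h1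
  have hδΛ : Λ * δ ≤ 1 / 2 := by
    have h1 : δ * (2 * Λ) ≤ 1 := by linarith
    linarith
  have hδA : A * (CP * (Λ * δ) ^ 2) ≤ δ / 16 := by
    have h1 : δ * (16 * (A * CP * Λ ^ 2)) ≤ 1 := by linarith
    have h2 := mul_le_mul_of_nonneg_left h1 hδ0.le
    nlinarith
  have hδ32 : 0 < δ / 32 := by positivity
  have hδ16 : 0 < δ / 16 := by positivity
  -- the couplings
  obtain ⟨g1, hg1, hg1'⟩ := small_pow (p := 1 / 12) (a := A * CN) (by norm_num) (by positivity) hδ32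
  obtain ⟨g2, hg2, hg2'⟩ := small_pow (p := 1 / 4) (a := A * CP * (Λ * δ)) (by norm_num)
    (by positivity) hδ32
  obtain ⟨g3, hg3, hg3'⟩ := small_pow (p := 1 / 16) (a := A * CP) (by norm_num) (by positivity) hδ32
  have hdR : (0 : ℝ) < d := by exact_mod_cast hd
  have hθw : 0 < (1 - θ) * w / 2 := by
    have : 0 < (1 - θ) * w := mul_pos (by linarith) hw
    linarith
  refine ⟨min (min gN gP) (min (min g1 g2) (δ / 16 / (4 * d))),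
    min (min r1 1) (min (min (δ / 16 / C2) ((1 - θ) * w / 2 / C2))
      (min (δ / 32 / (A * Ch * C2)) (g3 / (C2 * δ)))), by positivity, ?_, ?_⟩
  · refine lt_min (lt_min hr1 one_pos) (lt_min (lt_min (by positivity) (by positivity))
      (lt_min (by positivity) (by positivity)))
  intro γ r hγ hγ0 hr hr0
  obtain ⟨⟨hγN, hγP⟩, ⟨hγ1, hγ2⟩, hγd⟩ : (γ ≤ gN ∧ γ ≤ gP) ∧ (γ ≤ g1 ∧ γ ≤ g2) ∧
      γ ≤ δ / 16 / (4 * d) := by
    simp only [le_min_iff] at hγ0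
    exact hγ0
  obtain ⟨⟨hrr1, hr1'⟩, ⟨hrC, hrθ⟩, hrh, hrg⟩ : (r ≤ r1 ∧ r ≤ 1) ∧
      (r ≤ δ / 16 / C2 ∧ r ≤ (1 - θ) * w / 2 / C2) ∧ r ≤ δ / 32 / (A * Ch * C2) ∧
      r ≤ g3 / (C2 * δ) := by
    simp only [le_min_iff] at hr0
    exact hr0
  rw [le_div_iff₀ (by positivity)] at hγd hrC hrθ hrh hrg
  -- the gap
  obtain ⟨M, hM⟩ : ∃ M, M = 1 / ch + (θ * w + 1) + δ / 2 + 1 := ⟨_, rfl⟩
  have hθw0 : 0 ≤ θ * w := by positivity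
  have hM0 : 0 < M := by rw [hM]; positivity
  refine ⟨ch / M ^ 2, by positivity, ?_⟩
  intro ρ' _ hρ' K hK z hzr hz hz1 s hs
  have hprob : IsProbabilityMeasure (lev ψ r) := Pool.Agent.N163.HB.GAPA.lev_prob ψ r
  have hsupp : ((lev ψ r).conv ρ') (Set.Icc (-(r + r / 8)) (r + r / 8))ᶜ = 0 :=
    Pool.Agent.N163.HB.GAPA.conv_supp _ _ (Pool.Agent.N163.HB.GAPA.lev_supp hψ hr) hρ'
  obtain ⟨_, _, hCX3, hCX4⟩ := hCX
  obtain ⟨q, hq0, hq1, hq⟩ := hCX3 (r + r / 8) (‖K‖ + ‖z‖) z.im hz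
  have hw' : ∀ k, ∀ a ∈ Set.Icc (-(r + r / 8)) (r + r / 8), ‖wz K z k a‖ ≤ q := by
    intro k a ha
    refine hq _ a ?_ ?_ (abs_le.2 ha)
    · have h5 : ‖K k‖ ≤ ‖K‖ := K.norm_coe_le_norm k
      have h6 := norm_sub_le ((K k : ℝ) : ℂ) z
      rw [Complex.norm_real] at h6
      linarith
    · simp
  have hvr : 0 < vr (unif w) := Pool.Agent.W792.WA.Ch.vr_pos hCAY _ (unif_atom w)
  -- the facts on the level
  have hLQ'' : ∀ t : ℂ, t.im ≤ -(ch / (2 * Ch ^ 2)) → ‖t‖ ≤ 1 / ch + 1 →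
      ‖qf ((lev ψ r).conv ρ') t‖ ≤ C2 * r ∧ (qf ((lev ψ r).conv ρ') t).im ≤ -(c2 * r ^ 2) ∧
      ∀ t' : ℂ, t'.im ≤ -(ch / (2 * Ch ^ 2)) → ‖t'‖ ≤ 1 / ch + 1 →
        ‖qf ((lev ψ r).conv ρ') t - qf ((lev ψ r).conv ρ') t'‖ ≤ C2 * r ^ 2 * ‖t - t'‖ := by
    intro t h1 h2
    obtain ⟨-, h3, h4, h5⟩ := hLQ' r ρ' hr hrr1 hρ' t h1 h2
    exact ⟨h3, h4, h5⟩
  have hr2 : 0 < r ^ 2 := by positivity
  have hLm : C2 * r ^ 2 * δ / (c2 * r ^ 2) = Λ * δ := by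
    rw [hΛ]
    field_simp
  have hL16 : C2 * r ^ 2 * δ ≤ g3 := by
    have : r ^ 2 ≤ r := by nlinarith
    nlinarith [mul_le_mul_of_nonneg_left this (by positivity : 0 ≤ C2 * δ)]
  have hL3 := hg3' (C2 * r ^ 2 * δ) (by positivity) hL16
  have hG1 := hg1' γ hγ.le hγ1
  have hG2 := hg2' γ hγ.le hγ2
  obtain ⟨E0, hE0⟩ : ∃ E0, E0 = CN * γ ^ (1 / 12 : ℝ) + (CP * γ ^ (1 / 4 : ℝ) *
      (C2 * r ^ 2 * δ / (c2 * r ^ 2)) + CP * (C2 * r ^ 2 * δ) ^ (1 / 16 : ℝ)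
      + CP * (C2 * r ^ 2 * δ / (c2 * r ^ 2)) ^ 2) + Ch * (C2 * r) := ⟨_, rfl⟩
  have hAE : A * E0 ≤ 3 * δ / 16 := by
    rw [hE0, hLm]
    have e : A * (CN * γ ^ (1 / 12 : ℝ) + (CP * γ ^ (1 / 4 : ℝ) * (Λ * δ)
        + CP * (C2 * r ^ 2 * δ) ^ (1 / 16 : ℝ) + CP * (Λ * δ) ^ 2) + Ch * (C2 * r)) =
        A * CN * γ ^ (1 / 12 : ℝ) + A * CP * (Λ * δ) * γ ^ (1 / 4 : ℝ) +
        A * CP * (C2 * r ^ 2 * δ) ^ (1 / 16 : ℝ) + A * (CP * (Λ * δ) ^ 2) +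
        r * (A * Ch * C2) := by ring
    rw [e]
    linarith
  have hE2 : E0 ≤ ch / 2 := by
    have h1 : E0 ≤ 3 * δ / 16 * (ch ^ 2 / 2) := by
      have h2 : E0 = A * E0 * (ch ^ 2 / 2) := by
        rw [hA]
        field_simp
      rw [h2]
      exact mul_le_mul_of_nonneg_right hAE (by positivity)
    have h3 : δ * ch ^ 2 ≤ ch / 2 := by
      have h4 : δ * ch ^ 2 ≤ ch / (2 * Ch ^ 2) * Ch ^ 2 :=
        mul_le_mul hδc (pow_le_pow_left₀ hch.le hchCh 2) (by positivity) hc1.le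
      have h5 : ch / (2 * Ch ^ 2) * Ch ^ 2 = ch / 2 := by field_simp
      linarith
    nlinarith
  have hinv := inv (d := d) (w := w) (θ := θ) (θ' := θ') (κ := κ) (γ := γ) hw hγ hUX hNRES hBL
    (ρ := (lev ψ r).conv ρ') hsupp hK hzr hz hz1 (δ := δ) (L := C2 * r ^ 2) (m := c2 * r ^ 2)
    (B := C2 * r) (e1 := CN * γ ^ (1 / 12 : ℝ)) (CP := CP) (E0 := E0) hch hCh hHU1 hHU2
    (fun ζ h1 h2 h3 N hN k => hN1' γ hγ hγN ζ h1 h2 h3 N hN k)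
    (fun ζ h1 h2 h3 Y N N' hY hN hN' k => hPT' γ hγ hγP ζ h1 h2 h3 Y N N' hY hN hN' k)
    hLQ'' hδ0 hδ1 hδc hδch (by positivity) (by positivity) hCP0.le
    (by
      have h1 : C2 * r ^ 2 * δ = Λ * δ * (c2 * r ^ 2) := by
        rw [hΛ]
        field_simp
      rw [h1]
      have h2 := mul_le_mul_of_nonneg_right hδΛ (by positivity : 0 ≤ c2 * r ^ 2)
      linarith)
    (by linarith) (by linarith) (by rw [hθ']; linarith) (by positivity) (by linarith)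
    (le_of_eq hE0.symm) (by rw [← hA]; exact hAE) hE2
  -- the centre
  have hζ0re : |(z - κ).re| ≤ θ' * w := by
    have e : (z - κ : ℂ).re = z.re - κ := by simp
    rw [e, hθ']
    linarith
  have hζ0im : (z - κ : ℂ).im = z.im := by simp
  obtain ⟨hu1, hu2, hu3⟩ := hHU1 (z - κ) hζ0re (by rw [hζ0im]; exact hz) (by rw [hζ0im]; linarith)
  obtain ⟨_, _, hi3, _⟩ := h0_facts hch hu1 hu2
  obtain ⟨hcl, hne, hZ, -⟩ := hBL d (1 / hu w (z - κ) + (z - κ)) (δ / 2) ch hch hu3 (by positivity)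
    (by linarith)
  have hmem := (hFIX (unif w) d ((lev ψ r).conv ρ') (r + r / 8) q (wz K z) hvr hsupp
    (hCX4 d K z hz.le) hq0 hq1 hw').2.2 (ZB d (1 / hu w (z - κ) + (z - κ)) (δ / 2)) hcl hne
    (fun s hs => by
      have h1 := (hZ s hs).1
      have h2 : 0 ≤ ch / (‖1 / hu w (z - κ) + (z - κ)‖ + δ / 2 + 1) ^ 2 := by positivity
      linarith) hinv s hs
  refine (hZ s hmem).1.trans ?_
  have hn : ‖1 / hu w (z - κ) + (z - κ)‖ ≤ 1 / ch + (θ * w + 1) := by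
    refine (norm_add_le _ _).trans (add_le_add hi3 ?_)
    refine (Complex.norm_le_abs_re_add_abs_im _).trans ?_
    rw [hζ0im, abs_of_pos hz]
    have e : (z - κ : ℂ).re = z.re - κ := by simp
    rw [e]
    linarith
  have h1 : ch / M ^ 2 ≤ ch / (‖1 / hu w (z - κ) + (z - κ)‖ + δ / 2 + 1) ^ 2 := by
    refine div_le_div_of_nonneg_left hch.le (by positivity) ?_
    refine pow_le_pow_left₀ (by positivity) ?_ 2
    rw [hM]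
    linarith
  linarith

end

end Pool.Agent.N441.SD.SDG
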